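import Pool.Agent.R187.OB.Fin

/-!
# MP_94eb8e_an: an invariant measure that violates the integrability condition of Oseledets

The definitions used by the statement (`IsTable`, `state`, `Next`, `billiardMap`, `RegularOrbit`,
`IsInvariantProbability`, `IsNonPeriodic`, `IsDeriv`, `IsDerivInv`, `LogIntegrable`) are in
`Pool/Agent/R187/OB/Defs.lean`.

The table is the annulus `1 ≤ |z| ≤ 2`, which has no corners, hence no cusps. The measure is a
countable convex combination of the uniform measures on invariant circles on which the collisions
with the inner circle are non-tangential but closer and closer to tangential, and on which the square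
of the billiard map is an irrational rotation.
-/

set_option autoImplicit false

open MeasureTheory

namespace Pool.Agent.Results.MP_94eb8e_an.NotIntegrable

open Pool.Agent.R187.OB

/-- There is a compact billiard table with `C^3` boundary and without corners and cusps, and a
non-periodic invariant Borel probability measure `μ` of its billiard map `T`, giving full mass to the
states whose entire orbit avoids the singular set, such that neither `log⁺ ‖DT‖` nor
`log⁺ ‖D(T⁻¹)‖` is `μ`-integrable. -/
theorem result : ∃ (m : ℕ) (Q : Set ℂ) (γ : Fin m → ℝ → ℂ) (L : Fin m → ℝ)
    (μ : Measure (ℂ × ℂ)),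
    IsTable Q γ L ∧ IsInvariantProbability Q γ μ ∧ IsNonPeriodic Q γ μ ∧
    ¬ LogIntegrable (IsDeriv Q γ) μ ∧ ¬ LogIntegrable (IsDerivInv Q γ) μ := main

end Pool.Agent.Results.MP_94eb8e_an.NotIntegrable
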